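import Pool.Agent.H38.SE.TarZ

/-! Module ZD of the board `se_modules`: a true fact is secured. -/

set_option linter.unusedVariables false

open Ordinal Order Set
open scoped ZFSet

namespace SE

open SF

theorem pf_ZD (BA : T_BA) (BJ : T_BJ) (BK : T_BK) (BO : T_BO) (SA : T_SA) (ZA : T_ZA)
    (ZX : T_ZX) (WD : T_WD) (TP1 : T_TP1) (P3U : T_P3U) : T_ZD := by
  intro D hF G hG s hs hsL hTr a x haW haR hxW hxR hP3
  have hok := hF.ok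
  obtain ⟨hLH, hLc, -, -, hZA⟩ := ZA D hF
  obtain ⟨hZ1, -, -⟩ := hZA G hG
  obtain ⟨hst, -, -, -, -, -⟩ := hZ1 s hs hsL hTr
  have hNs : D.N s := (SA D hok s _ hst).1
  intro ρ' G0 hEx hResp
  by_contra hnP
  have hst' : D.St ρ' G0 := hEx.st
  have hNρ : D.N ρ' := (SA D hok ρ' _ hst').1
  -- names of `a` and `x`
  have nam : ∀ y, D.W (gs G s) y → Rl y → ∃ Y', D.N Y' ∧ Nam D.L ρ' Y' ∧
      ∀ G', D.Gn ρ' G' → gs G' s = gs G s → ev G' Y' = y := by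
    intro y hyW hyR
    obtain ⟨τ, hτ, hyτ⟩ := hyW
    obtain ⟨Y, hYN, hYn, hYv⟩ := (BO D hok s hNs hst.c).1 τ hτ
    obtain ⟨Y', hY'N, hY'n, hY'v⟩ :=
      (BO D hok ρ' hNρ hst'.c).2.2.2.2.2 s Y hNs hEx.sub hTr hYN hYn
    refine ⟨Y', hY'N, hY'n, ?_⟩
    intro G' hG' hres
    rw [hY'v G' hG']
    have h1 := ((BK D hok ρ' G' hNρ hst'.c hG').1 s Y hNs hEx.sub hTr hYN hYn).2.2.2.2.2 s
      (fun z hz => hz)
    rw [← h1, hres]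
    have h2 := (hYv (gs G s) hst.g).1 (hyτ ▸ hyR)
    rw [h2, hyτ]
  obtain ⟨A', hA'N, hA'n, hA'v⟩ := nam a haW haR
  obtain ⟨X', hX'N, hX'n, hX'v⟩ := nam x hxW hxR
  have hdec := ((WD D hok hF.tab ρ' hst'.h hst'.c).2.2.1 A' X' hA'N hX'N hA'n hX'n).2.2
  have hdec' := (ZX D hok ρ' hNρ hst'.c _ hdec).1
  obtain ⟨p', hp', hforce⟩ := (ZX D hok ρ' hNρ hst'.c _ hdec').2.2 G0 hst'.g (by
    rw [hA'v G0 hst'.g hEx.res, hX'v G0 hst'.g hEx.res]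
    exact hnP)
  obtain ⟨G', ρ'', hEx', hp'G', hρH, hsρ, hρL, hρTr, hW⟩ :=
    TP1 D hF G hG s hs hsL hTr ρ' G0 p' hEx hResp hp'
  have hn := hforce G' hEx'.st.g hp'G'
  have hn' : ¬ P3 (D.W G') a x := by
    intro h
    apply hn
    rw [hA'v G' hEx'.st.g hEx'.res, hX'v G' hEx'.st.g hEx'.res]
    exact h
  have hWW : D.W G' = D.W (gs G ρ'') := funext fun z => propext (hW z)
  obtain ⟨hst'', -, -, hup, -, -⟩ := hZ1 ρ'' hρH hρL hρTr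
  have hNρ'' : D.N ρ'' := (SA D hok ρ'' _ hst'').1
  have hsub : ∀ z, D.W (gs G s) z → D.W (gs G ρ'') z := by
    intro z hz
    have := (SA D hok s _ hst).2.2.2.2 ρ' G' hEx'
    exact (hW z).1 (this.2.2.1 z hz)
  obtain ⟨⟨hz1, -, -, -, ho1⟩, -, -⟩ := ((BJ D hok).2.2.2.2 D.Lam hF.lam hLc).2 G hG
  obtain ⟨⟨hz2, -, -, -, ho2⟩, -, -⟩ := ((BJ D hok).2.2.2.2 ρ'' hNρ'' hst''.c).2 _ hst''.g
  have h3 := P3U (D.W (gs G ρ'')) (D.W G) hz2.toZFCm hz1.toZFCm hup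
    (fun α hα => (ho2 α).2 ((ho1 α).1 hα)) a x (hsub a haW) haR (hsub x hxW) hxR hP3
  rw [← hWW] at h3
  exact hn' h3

end SE
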