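import Pool.Agent.H38.SE.TarZ

/-! Module ZI of the board `se_modules`: disjoint sets cannot be made non-disjoint. -/

set_option linter.unusedVariables false

open Ordinal Order Set
open scoped ZFSet

namespace SE

open SF

/-- the components of a label in the ground model -/
theorem H46_lab_N {M : V → Prop} (k : ZFm M) {L i : V} (hi : M i) (hl : Lab L i) :
    M (lS i) ∧ M (lA i) ∧ M (lB i) := by
  have h := hl.eq
  rw [h] at hi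
  unfold lab at hi
  obtain ⟨-, h1⟩ := k.of_pair hi
  obtain ⟨-, h2⟩ := k.of_pair h1
  obtain ⟨h3, h4⟩ := k.of_pair h2
  obtain ⟨-, h5⟩ := k.of_pair h4
  obtain ⟨-, h6⟩ := k.of_pair h5
  obtain ⟨h7, h8⟩ := k.of_pair h6
  exact ⟨h3, h7, h8⟩

theorem pf_ZI (BA : T_BA) (BJ : T_BJ) (BK : T_BK) (BO : T_BO) (BR : T_BR) (SA : T_SA)
    (ZA : T_ZA) (ZE : T_ZE) (ZX : T_ZX) (WD : T_WD) (TP2 : T_TP2) : T_ZI := by
  intro D hF G hG k hk hdisj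
  have hok := hF.ok
  obtain ⟨hLH, hLc, -, -, hZA⟩ := ZA D hF
  obtain ⟨hZ1, -, hZ3⟩ := hZA G hG
  have hBAc := BA.2.2.2.2.2.2 D.L D.Lam hLc
  obtain ⟨hlab, hsL, hcs, -, -⟩ := hBAc.2.1 k hk
  have hTr : Tr (lS k) := (BA.2.2.2.2.2.2 D.L (lS k) hcs).1
  have hkH : k ∈ D.H := hLH hk
  have hkN : D.N k := (BJ D hok).2.2.1 k hkH
  obtain ⟨hNs, hNA, hNB⟩ := H46_lab_N hok.zfc.toZFm hkN hlab
  -- the support is in `H`
  have hsH : lS k ∈ D.H := by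
    have h1 := (BR D hok).2.2.2.2.1
    have hsing : insert k ∅ ∈ D.H := by
      have h0 : (∅ : V) ∈ D.H := by
        have := (BR D hok).2.2.2.2.2.2.2.2.2 0
        rwa [nS_zero] at this
      exact ((BR D hok).2.2.2.1 k hkH ∅ h0).2.2
    exact (h1 _ hsing).2.2.2.1 k (ZFSet.mem_insert_iff.2 (Or.inl rfl))
  obtain ⟨hst, -, -, -, -, -⟩ := hZ1 (lS k) hsH hsL hTr
  rintro ⟨ρ', G0, y, hEx, hCl, hyW, hyR, hSA, hSB⟩
  have hst' : D.St ρ' G0 := hEx.st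
  have hNρ : D.N ρ' := (SA D hok ρ' _ hst').1
  -- names over `ρ'`
  obtain ⟨A', hA'N, hA'n, hA'v⟩ :=
    (BO D hok ρ' hNρ hst'.c).2.2.2.2.2 (lS k) (lA k) hNs hEx.sub hTr hNA hlab.a
  obtain ⟨B', hB'N, hB'n, hB'v⟩ :=
    (BO D hok ρ' hNρ hst'.c).2.2.2.2.2 (lS k) (lB k) hNs hEx.sub hTr hNB hlab.b
  obtain ⟨τ, hτ, hyτ⟩ := hyW
  obtain ⟨Y', hY'N, hY'n, hY'v⟩ := (BO D hok ρ' hNρ hst'.c).1 τ hτ
  have hY0 : ev G0 Y' = y := by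
    rw [(hY'v G0 hst'.g).1 (hyτ ▸ hyR), hyτ]
  have hd1 := ((WD D hok hF.tab ρ' hst'.h hst'.c).2.2.1 A' Y' hA'N hY'N hA'n hY'n).2.1
  have hd2 := ((WD D hok hF.tab ρ' hst'.h hst'.c).2.2.1 B' Y' hB'N hY'N hB'n hY'n).2.1
  have hd := (ZX D hok ρ' hNρ hst'.c _ hd1).2.1 _ hd2
  obtain ⟨p', hp', hforce⟩ := (ZX D hok ρ' hNρ hst'.c _ hd).2.2 G0 hst'.g (by
    rw [hA'v G0 hst'.g, hB'v G0 hst'.g, hY0]
    exact ⟨hSA, hSB⟩)
  obtain ⟨G', ρ'', hEx', hp'G', hρH, hsρ, hρL, hρTr, hW, hSec⟩ :=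
    TP2 D hF G hG (lS k) hsH hsL hTr ρ' G0 p' hEx hCl hp'
  obtain ⟨hfA, hfB⟩ := hforce G' hEx'.st.g hp'G'
  obtain ⟨hyR', hyW', -, -, -, -⟩ := (BK D hok ρ' G' hNρ hst'.c hEx'.st.g).1 ρ' Y' hNρ
    (fun z hz => hz) (BA.2.2.2.2.2.2 D.L ρ' hst'.c).1 hY'N hY'n
  -- the values of the codes
  have val1 : ∀ C : V, D.N C → Nam D.L (lS k) C → ev G' C = ev G C ∧ D.W G' (ev G' C) ∧
      Rl (ev G' C) := by
    intro C hC hCn
    obtain ⟨hR, hWC, -, -, -, hr⟩ := (BK D hok ρ' G' hNρ hst'.c hEx'.st.g).1 (lS k) C hNs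
      hEx.sub hTr hC hCn
    have h1 := hr (lS k) (fun z hz => hz)
    have h2 := ((BK D hok D.Lam G hF.lam hLc hG).1 (lS k) C hNs hsL hTr hC hCn).2.2.2.2.2
      (lS k) (fun z hz => hz)
    refine ⟨?_, hWC, hR⟩
    rw [← h1, hEx'.res, h2]
  obtain ⟨eA, wA, rA⟩ := val1 (lA k) hNA hlab.a
  obtain ⟨eB, wB, rB⟩ := val1 (lB k) hNB hlab.b
  obtain ⟨hst'', -, -, hup, -, -⟩ := hZ1 ρ'' hρH hρL hρTr
  have sA : S4 (D.W G) (ev G (lA k)) (ev G' Y') := by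
    refine (ZE D hF G hG ρ'' hρH hρL hρTr (ev G (lA k)) (ev G' Y') ?_ ?_ ?_ hyR').2
      ⟨ρ'', hρH, fun z hz => hz, hρL, hρTr, ?_⟩
    · rw [← eA]; exact (hW _).1 wA
    · rw [← eA]; exact rA
    · exact (hW _).1 hyW'
    · have := hSec _ _ hfA
      rwa [hA'v G' hEx'.st.g, eA] at this
  have sB : S4 (D.W G) (ev G (lB k)) (ev G' Y') := by
    refine (ZE D hF G hG ρ'' hρH hρL hρTr (ev G (lB k)) (ev G' Y') ?_ ?_ ?_ hyR').2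
      ⟨ρ'', hρH, fun z hz => hz, hρL, hρTr, ?_⟩
    · rw [← eB]; exact (hW _).1 wB
    · rw [← eB]; exact rB
    · exact (hW _).1 hyW'
    · have := hSec _ _ hfB
      rwa [hB'v G' hEx'.st.g, eB] at this
  exact hdisj (ev G' Y') (hup _ ((hW _).1 hyW')) hyR' ⟨sA, sB⟩

end SE
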